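import Pool.Agent.H720Z.Token.Main

/-!
# The online token colouring game has no uniform linear bound
-/

namespace Pool.Agent.Results.MP_a6415b_co.Unbounded

open Pool.Agent.H720Z.Token

/-- For every real `c` there is a finite graph `G` with `f(w, G) > c w` for all `w ≥ 2`; in
particular `limsup f(w, G) / w` is not bounded uniformly in `G`. -/
theorem result : ∀ c : ℝ, ∃ (n : ℕ) (G : SimpleGraph (Fin n)), ∀ w : ℕ, 2 ≤ w →
    c * (w : ℝ) < (value w G : ℝ) :=
  main

end Pool.Agent.Results.MP_a6415b_co.Unbounded
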